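import Mathlib

set_option autoImplicit false

namespace Pool.Agent.W50.LS

theorem tors_part {A : Type} [AddCommGroup A] [Finite A] (n : ℕ)
    (hn : Nat.card {a : A // a + a = 0} ≤ n) :
    ∃ T : Finset A, T.card ≤ n ∧ ∀ g : A, ∃ t ∈ T, ∃ q : A, g = t + (q + q) := by
  classical
  let f : A →+ A := AddMonoidHom.id A + AddMonoidHom.id A
  have hf : ∀ a, f a = a + a := fun a => rfl
  have h1 := AddSubgroup.card_mul_index f.ker
  have h2 := AddSubgroup.index_ker f
  have h3 := AddSubgroup.card_mul_index f.range
  have h4 : 0 < Nat.card f.range := Nat.card_pos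
  have h5 : f.range.index = Nat.card f.ker := by
    rw [h2] at h1
    have h6 : Nat.card f.range * f.range.index = Nat.card f.range * Nat.card f.ker := by
      rw [h3, ← h1, mul_comm]
    exact Nat.eq_of_mul_eq_mul_left h4 h6
  have h7 : Nat.card f.ker ≤ n := by
    refine le_trans (le_of_eq ?_) hn
    exact Nat.card_congr (Equiv.subtypeEquivRight fun a => by
      rw [AddMonoidHom.mem_ker, hf])
  have hfin : Finite (A ⧸ f.range) := inferInstance
  let ft : Fintype (A ⧸ f.range) := Fintype.ofFinite _
  refine ⟨(Finset.univ : Finset (A ⧸ f.range)).image fun w => Quotient.out w, ?_, fun g => ?_⟩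
  · refine Finset.card_image_le.trans ?_
    rw [Finset.card_univ, ← Nat.card_eq_fintype_card]
    change f.range.index ≤ n
    rw [h5]
    exact h7
  · refine ⟨Quotient.out (QuotientAddGroup.mk g : A ⧸ f.range),
      Finset.mem_image_of_mem _ (Finset.mem_univ _), ?_⟩
    have h8 : (QuotientAddGroup.mk (Quotient.out (QuotientAddGroup.mk g : A ⧸ f.range)) :
      A ⧸ f.range) = QuotientAddGroup.mk g := QuotientAddGroup.out_eq' _
    obtain ⟨q, hq⟩ := QuotientAddGroup.eq.1 h8
    rw [hf] at hq
    exact ⟨q, by rw [hq]; abel⟩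

/-- representatives of `G / 2 G` -/
theorem cover {G : Type} [AddCommGroup G] (hG : AddGroup.FG G) (Z : Finset G)
    (hZ : ∀ g : G, g + g = 0 → g ∈ Z) :
    ∃ T : Finset G, T.card ≤ Z.card * 2 ^ Module.finrank ℤ G ∧
      ∀ g : G, ∃ t ∈ T, ∃ q : G, g = t + (q + q) := by
  classical
  have : Module.Finite ℤ G := Module.Finite.iff_addGroup_fg.mpr hG
  let M := G ⧸ Submodule.torsion ℤ G
  have hr : Module.finrank ℤ M = Module.finrank ℤ G :=
    finrank_quotient_eq_of_le_torsion le_rfl
  have : Module.Finite ℤ M := inferInstance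
  have : Module.Free ℤ M := inferInstance
  rw [← hr]
  let r := Module.finrank ℤ M
  let b : Module.Basis (Fin r) ℤ M := Module.finBasis ℤ M
  have hA : Finite (Submodule.torsion ℤ G) :=
    Module.finite_of_fg_torsion (Submodule.torsion ℤ G) Submodule.torsion_isTorsion
  have hcard : Nat.card {a : Submodule.torsion ℤ G // a + a = 0} ≤ Z.card := by
    have h1 : Nat.card {a : Submodule.torsion ℤ G // a + a = 0} ≤ Nat.card Z := by
      refine Nat.card_le_card_of_injective (fun a => (⟨(a.1 : G), hZ _ (by
        have := congrArg (Subtype.val) a.2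
        simpa using this)⟩ : Z)) ?_
      intro x y hxy
      have h2 : ((x.1 : G)) = (y.1 : G) := congrArg (fun z : Z => (z : G)) hxy
      exact Subtype.ext (Subtype.ext h2)
    simpa using h1
  obtain ⟨T1, hT1, hc1⟩ := tors_part Z.card hcard
  choose lft hlft using (Submodule.torsion ℤ G).mkQ_surjective
  let gv : (Fin r → ZMod 2) → G := fun v => lft (b.equivFun.symm (fun i => ((v i).val : ℤ)))
  refine ⟨(T1 ×ˢ (Finset.univ : Finset (Fin r → ZMod 2))).image
    (fun x => (x.1 : G) + gv x.2), ?_, fun g => ?_⟩
  · refine Finset.card_image_le.trans ?_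
    rw [Finset.card_product, Finset.card_univ, Fintype.card_fun, ZMod.card, Fintype.card_fin]
    exact Nat.mul_le_mul_right _ hT1
  · let π := (Submodule.torsion ℤ G).mkQ
    let v : Fin r → ZMod 2 := fun i => ((b.equivFun (π g) i : ℤ) : ZMod 2)
    have hev : ∀ i, ∃ m : ℤ, b.equivFun (π g) i - ((v i).val : ℤ) = m + m := by
      intro i
      have h1 : ((b.equivFun (π g) i - ((v i).val : ℤ) : ℤ) : ZMod 2) = 0 := by
        rw [Int.cast_sub, Int.cast_natCast, ZMod.natCast_val, ZMod.cast_id', id_eq]
        exact sub_self _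
      obtain ⟨m, hm⟩ := (ZMod.intCast_zmod_eq_zero_iff_dvd _ 2).1 h1
      exact ⟨m, by rw [hm]; push_cast; ring⟩
    choose m hm using hev
    let h : G := lft (b.equivFun.symm m)
    have hker : g - gv v - (h + h) ∈ Submodule.torsion ℤ G := by
      rw [← Submodule.Quotient.mk_eq_zero, ← Submodule.mkQ_apply]
      rw [map_sub, map_sub, map_add]
      change π g - (Submodule.torsion ℤ G).mkQ (lft _) - ((Submodule.torsion ℤ G).mkQ (lft _)
        + (Submodule.torsion ℤ G).mkQ (lft _)) = 0
      rw [hlft, hlft]
      apply b.equivFun.injective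
      rw [map_sub, map_sub, map_add, map_zero, LinearEquiv.apply_symm_apply,
        LinearEquiv.apply_symm_apply]
      funext i
      simp only [Pi.sub_apply, Pi.add_apply, Pi.zero_apply]
      rw [hm i]
      ring
    obtain ⟨t, ht, q, hq⟩ := hc1 ⟨_, hker⟩
    refine ⟨(t : G) + gv v, Finset.mem_image.2 ⟨(t, v), Finset.mem_product.2
      ⟨ht, Finset.mem_univ _⟩, rfl⟩, h + (q : G), ?_⟩
    have hq' : g - gv v - (h + h) = (t : G) + ((q : G) + (q : G)) := congrArg Subtype.val hq
    have : g = (g - gv v - (h + h)) + gv v + (h + h) := by abel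
    rw [this, hq']
    abel

/-- many elements of order two -/
theorem inj_of_card {S : Type} [AddCommGroup S] (n : ℕ) (I : Finset S)
    (hI : ∀ c ∈ I, c + c = 0) (hn : 2 ^ n ≤ I.card) :
    ∃ j : (Fin n → ZMod 2) →+ S, Function.Injective j := by
  classical
  let V : AddSubgroup S :=
    { carrier := {c | c + c = 0}
      zero_mem' := add_zero 0
      add_mem' := by
        intro a b ha hb
        have h1 : a + a = 0 := ha
        have h2 : b + b = 0 := hb
        change a + b + (a + b) = 0
        calc a + b + (a + b) = (a + a) + (b + b) := by abel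
          _ = 0 := by rw [h1, h2, add_zero]
      neg_mem' := by
        intro a ha
        have h1 : a + a = 0 := ha
        change -a + -a = 0
        rw [← neg_add, h1, neg_zero] }
  let md : Module (ZMod 2) V := AddCommGroup.zmodModule (n := 2) (fun x => by
    have h1 : (x : S) + (x : S) = 0 := x.2
    apply Subtype.ext
    rw [two_nsmul]
    exact h1)
  let b := Module.Basis.ofVectorSpace (ZMod 2) V
  by_cases h : Nonempty (Fin n ↪ Module.Basis.ofVectorSpaceIndex (ZMod 2) V)
  · obtain ⟨e⟩ := h
    have hli : LinearIndependent (ZMod 2) (fun i => b (e i)) :=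
      b.linearIndependent.comp e e.injective
    let j := Fintype.linearCombination (ZMod 2) (fun i => b (e i))
    have hj : Function.Injective j := linearIndependent_iff_injective_fintypeLinearCombination.mp hli
    refine ⟨V.subtype.comp j.toAddMonoidHom, ?_⟩
    exact (Subtype.val_injective).comp hj
  · exfalso
    have hlt : Cardinal.mk (Module.Basis.ofVectorSpaceIndex (ZMod 2) V) < (n : Cardinal) := by
      by_contra hc
      apply h
      rw [not_lt, ← Cardinal.mk_fin n] at hc
      exact (Cardinal.le_def _ _).1 hc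
    have hfin : Finite (Module.Basis.ofVectorSpaceIndex (ZMod 2) V) :=
      Cardinal.lt_aleph0_iff_finite.1 (hlt.trans (Cardinal.natCast_lt_aleph0))
    let ft : Fintype (Module.Basis.ofVectorSpaceIndex (ZMod 2) V) := Fintype.ofFinite _
    rw [Cardinal.mk_fintype, Nat.cast_lt] at hlt
    have hV : Nat.card V = 2 ^ Fintype.card (Module.Basis.ofVectorSpaceIndex (ZMod 2) V) := by
      rw [Nat.card_congr b.equivFun.toEquiv, Nat.card_eq_fintype_card, Fintype.card_fun,
        ZMod.card]
    have hVf : Finite V := Finite.of_equiv _ b.equivFun.toEquiv.symm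
    have h1 : I.card ≤ Nat.card V := by
      have h2 : Nat.card I ≤ Nat.card V :=
        Nat.card_le_card_of_injective (fun c : I => (⟨c.1, hI c.1 c.2⟩ : V)) (by
          intro x y hxy
          exact Subtype.ext (congrArg (fun z : V => (z : S)) hxy))
      simpa using h2
    rw [hV] at h1
    have h3 : 2 ^ Fintype.card (Module.Basis.ofVectorSpaceIndex (ZMod 2) V) < 2 ^ n :=
      Nat.pow_lt_pow_right (by norm_num) hlt
    omega

/-- squarefree numbers whose product is a rational square are equal -/
theorem sqf_eq {d e : ℕ} (hd : Squarefree d) (he : Squarefree e) (q : ℚ)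
    (h : q ^ 2 = (d : ℚ) * e) : d = e := by
  have hd0 : d ≠ 0 := hd.ne_zero
  have he0 : e ≠ 0 := he.ne_zero
  have h1 : IsSquare ((d * e : ℕ) : ℚ) := ⟨q, by push_cast; rw [← h]; ring⟩
  obtain ⟨m, hm⟩ := (Rat.isSquare_natCast_iff).1 h1
  have hm0 : m ≠ 0 := by
    rintro rfl
    have : d * e = 0 := by simpa using hm
    rcases Nat.mul_eq_zero.1 this with h2 | h2
    · exact hd0 h2
    · exact he0 h2
  refine Nat.eq_of_factorization_eq hd0 he0 fun p => ?_
  have h2 : (d * e).factorization p = (m * m).factorization p := by rw [hm]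
  rw [Nat.factorization_mul hd0 he0, Nat.factorization_mul hm0 hm0] at h2
  simp only [Finsupp.add_apply] at h2
  have h3 := hd.natFactorization_le_one p
  have h4 := he.natFactorization_le_one p
  omega

end Pool.Agent.W50.LS
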