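import Pool.Agent.W307.LS.Stm
import Pool.Agent.W50.LS.Grp

/-!
Project LS (owner helper307), part LS-KERS.
-/

set_option autoImplicit false

open scoped Classical

namespace Pool.Agent.W50.LS

open WeierstrassCurve Pool.Agent.W262.SH Pool.Agent.W307.LS

theorem algQB : Algebra.IsAlgebraic ℚ QB := AlgebraicClosure.isAlgebraic ℚ

theorem acQB : IsAlgClosure ℚ QB := ⟨inferInstance, algQB⟩

theorem galQB : IsGalois ℚ QB := by
  have := acQB
  exact IsAlgClosure.isGalois ℚ QB

section gen
variable (W : WeierstrassCurve ℚ)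

theorem act_act {F L N : Type} [Field F] [Field L] [Field N] [Algebra ℚ F] [Algebra ℚ L]
    [Algebra ℚ N] (φ : F →ₐ[ℚ] L) (ψ : L →ₐ[ℚ] N) (P : Pt W F) :
    act W ψ (act W φ P) = act W (ψ.comp φ) P :=
  WeierstrassCurve.Affine.Point.map_map φ ψ P

theorem act_some {F L : Type} [Field F] [Field L] [Algebra ℚ F] [Algebra ℚ L] (φ : F →ₐ[ℚ] L)
    {x y : F} (h : (W.baseChange F).toAffine.Nonsingular x y) :
    ∃ h', act W φ (.some x y h) = .some (φ x) (φ y) h' :=
  ⟨_, WeierstrassCurve.Affine.Point.map_some φ h⟩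

theorem some_congr {F : Type} [Field F] {W' : WeierstrassCurve F} {x y x' y' : F}
    (hx : x = x') (hy : y = y') (h : W'.toAffine.Nonsingular x y)
    (h' : W'.toAffine.Nonsingular x' y') :
    (Affine.Point.some x y h : W'.toAffine.Point) = Affine.Point.some x' y' h' := by
  subst hx
  subst hy
  rfl

theorem add_inst {F : Type} [Field F] (W : WeierstrassCurve F) (d1 d2 : DecidableEq F)
    (P Q : W.toAffine.Point) :
    (@HAdd.hAdd _ _ _ (@instHAdd _ (@WeierstrassCurve.Affine.Point.instAdd F _ _ d1)) P Q) =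
    (@HAdd.hAdd _ _ _ (@instHAdd _ (@WeierstrassCurve.Affine.Point.instAdd F _ _ d2)) P Q) := by
  rw [Subsingleton.elim d1 d2]

theorem act_add {F L : Type} [Field F] [Field L] [Algebra ℚ F] [Algebra ℚ L]
    (W : WeierstrassCurve ℚ) (φ : F →ₐ[ℚ] L) (P Q : Pt W F) :
    act W φ (P + Q) = act W φ P + act W φ Q := map_add _ P Q

/-- the rational points as points over the algebraic numbers -/
noncomputable def J : W.toAffine.Point →+ Pt W QB where
  toFun P := act W (F := ℚ) (Algebra.ofId ℚ QB) P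
  map_zero' := rfl
  map_add' P Q := by
    have h := act_add (F := ℚ) W (Algebra.ofId ℚ QB) P Q
    have h2 := add_inst W (fun a b => Classical.propDecidable (a = b)) instDecidableEqRat P Q
    exact (congrArg (act W (F := ℚ) (Algebra.ofId ℚ QB)) h2.symm).trans h

theorem J_inj : Function.Injective (J W) :=
  WeierstrassCurve.Affine.Point.map_injective (W' := W) (Algebra.ofId ℚ QB)

theorem act_J (σ : QB ≃ₐ[ℚ] QB) (P : W.toAffine.Point) :
    act W σ.toAlgHom (J W P) = J W P := by
  have h := act_act W (F := ℚ) (Algebra.ofId ℚ QB) σ.toAlgHom P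
  rw [Subsingleton.elim (σ.toAlgHom.comp (Algebra.ofId ℚ QB)) (Algebra.ofId ℚ QB)] at h
  exact h

theorem fix_J {R : Pt W QB} (hR : ∀ σ : QB ≃ₐ[ℚ] QB, act W σ.toAlgHom R = R) :
    ∃ P, J W P = R := by
  have := galQB
  rcases R with _ | ⟨x, y, h⟩
  · exact ⟨0, map_zero _⟩
  · have hxy : ∀ σ : QB ≃ₐ[ℚ] QB, σ x = x ∧ σ y = y := by
      intro σ
      obtain ⟨h1, e1⟩ := act_some W σ.toAlgHom h
      have h2 := (hR σ).symm.trans e1
      injection h2 with h3 h4
      exact ⟨h3.symm, h4.symm⟩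
    obtain ⟨x0, hx0⟩ := (InfiniteGalois.mem_range_algebraMap_iff_fixed (k := ℚ) x).2
      fun σ => (hxy σ).1
    obtain ⟨y0, hy0⟩ := (InfiniteGalois.mem_range_algebraMap_iff_fixed (k := ℚ) y).2
      fun σ => (hxy σ).2
    subst hx0
    subst hy0
    have h0 : W.toAffine.Nonsingular x0 y0 :=
      (WeierstrassCurve.Affine.map_nonsingular (W := W.toAffine) (f := algebraMap ℚ QB)
        (algebraMap ℚ QB).injective x0 y0).1 h
    exact ⟨.some x0 y0 h0, rfl⟩

end gen

section curve
variable (a b : ℤ)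

theorem coeffs (K : Type) [Field K] [Algebra ℚ K] :
    ((F4 a b).baseChange K).toAffine.a₁ = 0 ∧
    ((F4 a b).baseChange K).toAffine.a₂ = 2 * ((a : K) + b) ∧
    ((F4 a b).baseChange K).toAffine.a₃ = 0 ∧
    ((F4 a b).baseChange K).toAffine.a₄ = ((a : K) - b) ^ 2 ∧
    ((F4 a b).baseChange K).toAffine.a₆ = 0 := by
  refine ⟨map_zero _, ?_, map_zero _, ?_, map_zero _⟩
  · show algebraMap ℚ K (2 * ((a : ℚ) + b)) = _
    rw [map_mul, map_add, map_intCast, map_intCast, map_ofNat]
  · show algebraMap ℚ K (((a : ℚ) - b) ^ 2) = _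
    rw [map_pow, map_sub, map_intCast, map_intCast]

/-- the points killed by two: at most four of them -/
theorem tors2 : ∃ Z : Finset (Pt (F4 a b) QB), Z.card ≤ 4 ∧ ∀ T, T + T = 0 → T ∈ Z := by
  obtain ⟨a1, a2, a3, a4, a6⟩ := coeffs a b QB
  let p : Polynomial QB := Polynomial.X ^ 3 + Polynomial.C (2 * ((a : QB) + b)) * Polynomial.X ^ 2
    + Polynomial.C (((a : QB) - b) ^ 2) * Polynomial.X
  have hp : p = Cubic.toPoly ⟨1, 2 * ((a : QB) + b), ((a : QB) - b) ^ 2, 0⟩ := by
    simp [p, Cubic.toPoly]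
  have hdeg : p.natDegree = 3 := by
    rw [hp]
    exact Cubic.natDegree_of_a_ne_zero one_ne_zero
  have hp0 : p ≠ 0 := by
    intro h
    rw [h, Polynomial.natDegree_zero] at hdeg
    omega
  refine ⟨insert 0 (p.roots.toFinset.image fun x =>
    if h : ((F4 a b).baseChange QB).toAffine.Nonsingular x 0 then Affine.Point.some x 0 h else 0),
    ?_, fun T hT => ?_⟩
  · refine (Finset.card_insert_le _ _).trans ?_
    have h1 := Finset.card_image_le (s := p.roots.toFinset) (f := fun x =>
      if h : ((F4 a b).baseChange QB).toAffine.Nonsingular x 0 then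
        (Affine.Point.some x 0 h : Pt (F4 a b) QB) else 0)
    have h2 := Multiset.toFinset_card_le p.roots
    have h3 := p.card_roots'
    omega
  · rcases T with _ | ⟨x, y, h⟩
    · exact Finset.mem_insert_self _ _
    · have h1 : (.some x y h : Pt (F4 a b) QB) = -(.some x y h) := eq_neg_of_add_eq_zero_left hT
      rw [WeierstrassCurve.Affine.Point.neg_some] at h1
      injection h1 with h2 h3
      have h4 : y = 0 := by
        unfold WeierstrassCurve.Affine.negY at h3
        rw [a1, a3] at h3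
        have h7 : 2 * y = 0 := by linear_combination h3
        rcases mul_eq_zero.1 h7 with h8 | h8
        · exact absurd h8 two_ne_zero
        · exact h8
      subst h4
      have h5 := (WeierstrassCurve.Affine.equation_iff _ _).1 h.1
      rw [a1, a2, a3, a4, a6] at h5
      refine Finset.mem_insert_of_mem (Finset.mem_image.2 ⟨x, ?_, ?_⟩)
      · rw [Multiset.mem_toFinset, Polynomial.mem_roots hp0, Polynomial.IsRoot.def]
        simp only [p, Polynomial.eval_add, Polynomial.eval_mul, Polynomial.eval_pow,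
          Polynomial.eval_X, Polynomial.eval_C]
        linear_combination -h5
      · rw [dif_pos h]

theorem half (c : Pt (F4 a b) QB) : ∃ Z : Finset (Pt (F4 a b) QB), Z.card ≤ 4 ∧
    ∀ H, H + H = c → H ∈ Z := by
  obtain ⟨Z, hZ, hZ'⟩ := tors2 a b
  by_cases hc : ∃ H0, H0 + H0 = c
  · obtain ⟨H0, h0⟩ := hc
    refine ⟨Z.image (fun T => T + H0), Finset.card_image_le.trans hZ, fun H hH => ?_⟩
    refine Finset.mem_image.2 ⟨H - H0, hZ' _ ?_, by abel⟩
    calc H - H0 + (H - H0) = (H + H) - (H0 + H0) := by abel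
      _ = 0 := by rw [hH, h0, sub_self]
  · exact ⟨∅, by simp, fun H hH => absurd ⟨H, hH⟩ hc⟩

theorem T0_ne {a b : ℤ} (hab : a ≠ b) : T0 a b QB ≠ 0 := by
  obtain ⟨a1, a2, a3, a4, a6⟩ := coeffs a b QB
  have hns : ((F4 a b).baseChange QB).toAffine.Nonsingular 0 0 := by
    rw [WeierstrassCurve.Affine.nonsingular_iff, WeierstrassCurve.Affine.equation_iff]
    rw [a1, a2, a3, a4, a6]
    refine ⟨by ring, Or.inl ?_⟩
    have h1 : ((a : QB) - b) ≠ 0 := sub_ne_zero.2 (by exact_mod_cast hab)
    intro h2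
    apply pow_ne_zero 2 h1
    linear_combination -h2
  unfold T0
  rw [dif_pos hns]
  exact WeierstrassCurve.Affine.Point.some_ne_zero _

theorem T0_add : T0 a b QB + T0 a b QB = 0 := by
  obtain ⟨a1, a2, a3, a4, a6⟩ := coeffs a b QB
  unfold T0
  by_cases h : ((F4 a b).baseChange QB).toAffine.Nonsingular 0 0
  · rw [dif_pos h]
    refine WeierstrassCurve.Affine.Point.add_self_of_Y_eq ?_
    unfold WeierstrassCurve.Affine.negY
    rw [a1, a3]
    ring
  · rw [dif_neg h, add_zero]

theorem cs_add (s : QB) (σ : QB ≃ₐ[ℚ] QB) : cs a b s σ + cs a b s σ = 0 := by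
  unfold cs
  by_cases h : σ s = s
  · rw [if_pos h, add_zero]
  · rw [if_neg h, T0_add]

/-- the cocycle determines the squarefree number -/
theorem cs_inj {a b : ℤ} (hab : a ≠ b) {d e : ℕ} (hd : Squarefree d) (he : Squarefree e)
    {s t : QB} (hs : s ^ 2 = (d : QB)) (ht : t ^ 2 = (e : QB)) (h : cs a b s = cs a b t) :
    d = e := by
  have hT := T0_ne hab
  have key : ∀ σ : QB ≃ₐ[ℚ] QB, σ s = s ↔ σ t = t := by
    intro σ
    have h1 := congrFun h σ
    unfold cs at h1
    by_cases h2 : σ s = s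
    · by_cases h3 : σ t = t
      · exact ⟨fun _ => h3, fun _ => h2⟩
      · rw [if_pos h2, if_neg h3] at h1
        exact absurd h1.symm hT
    · by_cases h3 : σ t = t
      · rw [if_neg h2, if_pos h3] at h1
        exact absurd h1 hT
      · exact ⟨fun h4 => absurd h4 h2, fun h4 => absurd h4 h3⟩
  have pm : ∀ (u : QB) (n : ℕ), u ^ 2 = (n : QB) → ∀ σ : QB ≃ₐ[ℚ] QB, σ u = u ∨ σ u = -u := by
    intro u n hu σ
    apply sq_eq_sq_iff_eq_or_eq_neg.1
    rw [← map_pow, hu, map_natCast]
  have fx : ∀ σ : QB ≃ₐ[ℚ] QB, σ (s * t) = s * t := by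
    intro σ
    rw [map_mul]
    by_cases h2 : σ s = s
    · rw [h2, (key σ).1 h2]
    · have h3 : σ t ≠ t := fun h4 => h2 ((key σ).2 h4)
      rw [(pm s d hs σ).resolve_left h2, (pm t e ht σ).resolve_left h3]
      ring
  have := galQB
  obtain ⟨q, hq⟩ := (InfiniteGalois.mem_range_algebraMap_iff_fixed (k := ℚ) (s * t)).2 fx
  refine sqf_eq hd he q ?_
  apply (algebraMap ℚ QB).injective
  rw [map_pow, hq, map_mul, map_natCast, map_natCast, mul_pow, hs, ht]

end curve

theorem kers : KERS := by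
  intro a b ha hb hab hfg D n hsq hsha hcard
  have hroot : ∀ d : ℕ, ∃ s : QB, s ^ 2 = (d : QB) := fun d =>
    IsAlgClosed.exists_pow_nat_eq _ (by norm_num)
  choose s hs using hroot
  -- the classes
  have hmem : ∀ d ∈ D, cs a b (s d) ∈ shaCoc (F4 a b) := fun d hd => hsha d hd _ (hs d)
  let c : ℕ → Sha (F4 a b) := fun d =>
    if h : cs a b (s d) ∈ shaCoc (F4 a b) then QuotientAddGroup.mk ⟨cs a b (s d), h⟩ else 0
  have hc : ∀ d (hd : d ∈ D), c d = QuotientAddGroup.mk ⟨cs a b (s d), hmem d hd⟩ :=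
    fun d hd => dif_pos (hmem d hd)
  -- transversal
  obtain ⟨Z, hZ, hZ'⟩ := tors2 a b
  obtain ⟨T, hT, hT'⟩ := cover hfg ((Z.preimage (J (F4 a b)) (J_inj (F4 a b)).injOn))
    (fun g hg => by
      rw [Finset.mem_preimage]
      apply hZ'
      rw [← map_add, hg, map_zero])
  have hT4 : T.card ≤ 4 * 2 ^ Module.finrank ℤ (F4 a b).toAffine.Point := by
    refine hT.trans (Nat.mul_le_mul_right _ ?_)
    have h1 : ((Z.preimage (J (F4 a b)) (J_inj (F4 a b)).injOn).image (J (F4 a b))).card
        = (Z.preimage (J (F4 a b)) (J_inj (F4 a b)).injOn).card :=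
      Finset.card_image_of_injective _ (J_inj (F4 a b))
    rw [← h1]
    refine (Finset.card_le_card ?_).trans hZ
    intro x hx
    obtain ⟨g, hg, rfl⟩ := Finset.mem_image.1 hx
    exact Finset.mem_preimage.1 hg
  choose ZZ hZZ hZZ' using half a b
  let Y : Finset (Pt (F4 a b) QB) := T.biUnion fun t => ZZ (J (F4 a b) t)
  have hY : Y.card ≤ 16 * 2 ^ Module.finrank ℤ (F4 a b).toAffine.Point := by
    refine (Finset.card_biUnion_le_card_mul T _ 4 fun t _ => hZZ _).trans ?_
    calc T.card * 4 ≤ 4 * 2 ^ Module.finrank ℤ (F4 a b).toAffine.Point * 4 :=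
          Nat.mul_le_mul_right _ hT4
      _ = 16 * 2 ^ Module.finrank ℤ (F4 a b).toAffine.Point := by ring
  -- fibres
  have hfib : ∀ y ∈ D.image c, (D.filter fun d => c d = y).card ≤
      16 * 2 ^ Module.finrank ℤ (F4 a b).toAffine.Point := by
    intro y hy
    obtain ⟨d0, hd0, rfl⟩ := Finset.mem_image.1 hy
    have hH : ∀ d ∈ D.filter (fun d => c d = c d0), ∃ H ∈ Y, ∀ σ : QB ≃ₐ[ℚ] QB,
        cs a b (s d) σ = cs a b (s d0) σ + (act (F4 a b) σ.toAlgHom H - H) := by
      intro d hd
      obtain ⟨hdD, hdc⟩ := Finset.mem_filter.1 hd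
      rw [hc d hdD, hc d0 hd0, eq_comm, QuotientAddGroup.eq] at hdc
      obtain ⟨P, hP⟩ := (AddSubgroup.mem_addSubgroupOf.1 hdc : IsCob (F4 a b) _)
      have hP' : ∀ σ : QB ≃ₐ[ℚ] QB, -(cs a b (s d0) σ) + cs a b (s d) σ =
        act (F4 a b) σ.toAlgHom P - P := hP
      have hfix : ∀ σ : QB ≃ₐ[ℚ] QB, act (F4 a b) σ.toAlgHom (P + P) = P + P := by
        intro σ
        have h1 := hP' σ
        have h2 : (act (F4 a b) σ.toAlgHom P - P) + (act (F4 a b) σ.toAlgHom P - P) = 0 := by
          rw [← h1]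
          calc -(cs a b (s d0) σ) + cs a b (s d) σ + (-(cs a b (s d0) σ) + cs a b (s d) σ)
              = -(cs a b (s d0) σ + cs a b (s d0) σ) + (cs a b (s d) σ + cs a b (s d) σ) := by
                abel
            _ = 0 := by rw [cs_add, cs_add, neg_zero, add_zero]
        rw [map_add]
        calc act (F4 a b) σ.toAlgHom P + act (F4 a b) σ.toAlgHom P
            = ((act (F4 a b) σ.toAlgHom P - P) + (act (F4 a b) σ.toAlgHom P - P)) + (P + P) := by
              abel
          _ = P + P := by rw [h2, zero_add]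
      obtain ⟨R, hR⟩ := fix_J (F4 a b) hfix
      obtain ⟨t, ht, q, hq⟩ := hT' R
      refine ⟨P - J (F4 a b) q, Finset.mem_biUnion.2 ⟨t, ht, hZZ' _ _ ?_⟩, fun σ => ?_⟩
      · rw [hq, map_add, map_add] at hR
        calc P - J (F4 a b) q + (P - J (F4 a b) q)
            = (P + P) - (J (F4 a b) q + J (F4 a b) q) := by abel
          _ = J (F4 a b) t := by rw [← hR]; abel
      · rw [map_sub, act_J]
        have h1 := hP' σ
        calc cs a b (s d) σ = cs a b (s d0) σ + (-(cs a b (s d0) σ) + cs a b (s d) σ) := by abel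
          _ = cs a b (s d0) σ + (act (F4 a b) σ.toAlgHom P - P) := by rw [h1]
          _ = _ := by abel
    let H : ℕ → Pt (F4 a b) QB := fun d =>
      if h : d ∈ D.filter (fun d => c d = c d0) then Classical.choose (hH d h) else 0
    have hH1 : ∀ d (h : d ∈ D.filter (fun d => c d = c d0)), H d = Classical.choose (hH d h) :=
      fun d h => dif_pos h
    refine (Finset.card_le_card_of_injOn H ?_ ?_).trans hY
    · intro d hd
      rw [hH1 d hd]
      exact (Classical.choose_spec (hH d hd)).1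
    · intro d hd e he hde
      have h1 := (Classical.choose_spec (hH d hd)).2
      have h2 := (Classical.choose_spec (hH e he)).2
      rw [← hH1 d hd] at h1
      rw [← hH1 e he] at h2
      have h3 : H d = H e := hde
      refine cs_inj hab (hsq d (Finset.mem_filter.1 hd).1) (hsq e (Finset.mem_filter.1 he).1)
        (hs d) (hs e) ?_
      funext σ
      rw [h1 σ, h2 σ, h3]
  have h1 := Finset.card_le_mul_card_image D _ hfib
  have h2 : 2 ^ n ≤ (D.image c).card := by
    have h3 := hcard.trans h1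
    exact Nat.le_of_mul_le_mul_left h3 (by positivity)
  refine inj_of_card n (D.image c) (fun y hy => ?_) h2
  obtain ⟨d, hd, rfl⟩ := Finset.mem_image.1 hy
  rw [hc d hd, ← QuotientAddGroup.mk_add, QuotientAddGroup.eq_zero_iff]
  refine AddSubgroup.mem_addSubgroupOf.2 ⟨0, fun σ => ?_⟩
  show cs a b (s d) σ + cs a b (s d) σ = _
  rw [cs_add, map_zero, sub_zero]

end Pool.Agent.W50.LS
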